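import Pool.Agent.Q119.Real.Six

set_option autoImplicit false

/-!
A strongly indecomposable torsion-free abelian group of rank six whose endomorphism ring is
centrally essential and not commutative.
-/

namespace Pool.Agent.Results.MP_7bf690_al.RankSix

open Pool.Agent.Q119.Real

/-- Every nonzero `a` has nonzero central `c, d` with `a c = d`. -/
def CentrallyEssential (R : Type) [Ring R] : Prop :=
  ∀ a : R, a ≠ 0 → ∃ c ∈ Subring.center R, ∃ d ∈ Subring.center R, c ≠ 0 ∧ d ≠ 0 ∧ a * c = d

/-- The group is nonzero and if `n A` is contained in a direct sum of two subgroups, then one of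
them vanishes. -/
def StronglyIndecomposable (A : Type) [AddCommGroup A] : Prop :=
  Nontrivial A ∧ ∀ (B C : AddSubgroup A) (n : ℕ), 0 < n → B ⊓ C = ⊥ →
    (∀ a : A, n • a ∈ B ⊔ C) → B = ⊥ ∨ C = ⊥

/-- The generators. -/
def gen : ℕ → Six
  | 0 => Six.X
  | 1 => Six.Y
  | _ => Six.Z

theorem gen_sq (i : ℕ) : gen i * gen i = 0 := by
  match i with
  | 0 => exact Six.X_sq
  | 1 => exact Six.Y_sq
  | (n + 2) => exact Six.Z_sq

/-- The ring. -/
def T : Subring Six := Subring.closure (Set.range gen)

theorem X_mem : Six.X ∈ T := Subring.subset_closure ⟨0, rfl⟩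
theorem Y_mem : Six.Y ∈ T := Subring.subset_closure ⟨1, rfl⟩
theorem Z_mem : Six.Z ∈ T := Subring.subset_closure ⟨2, rfl⟩

theorem T_le : T ≤ Six.Int6 := by
  apply Subring.closure_le.2
  rintro _ ⟨i, rfl⟩
  match i with
  | 0 => exact Six.X_mem
  | 1 => exact Six.Y_mem
  | (n + 2) => exact Six.Z_mem

theorem reduced_T : Reduced T := by
  intro b hb h
  apply Six.reduced_Int6 b (T_le hb)
  intro N
  obtain ⟨p, hN, _, c, hc, hbc⟩ := h N
  exact ⟨p, hN, c, T_le hc, hbc⟩

/-- The data. -/
noncomputable def D : Data T := data gen (fun i => Or.inl (gen_sq i))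

theorem good : Good (Set.range gen) D := good_data gen (fun i => Or.inl (gen_sq i))

/-- The group. -/
noncomputable abbrev A : AddSubgroup Six := Grp D

/-- The endomorphism ring. -/
noncomputable def equiv : T ≃+* AddMonoid.End A := endEquiv reduced_T good rfl

theorem equiv_apply (r : T) (a : A) : ((equiv r a : A) : Six) = r * a := rfl

theorem mem_center (r : T) (hx : (r : Six).x = 0) (hy : (r : Six).y = 0) :
    r ∈ Subring.center T := by
  rw [Subring.mem_center_iff]
  intro s
  apply Subtype.ext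
  exact (Six.central r hx hy s).symm

theorem essential_T : CentrallyEssential T := by
  intro a ha
  by_cases h : a * ⟨Six.Z, Z_mem⟩ = 0
  · have h1 : (a : Six) * Six.Z = 0 := congrArg Subtype.val h
    have hx : (a : Six).x = 0 := by
      have := congrArg Six.p h1
      simpa [Six.Z] using this
    have hy : (a : Six).y = 0 := by
      have := congrArg Six.q h1
      simpa [Six.Z] using this
    refine ⟨1, Subring.one_mem _, a, mem_center a hx hy, ?_, ha, mul_one a⟩
    intro h2
    have := congrArg Six.a (congrArg Subtype.val h2)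
    simp at this
  · refine ⟨⟨Six.Z, Z_mem⟩, mem_center _ rfl rfl, _, ?_, ?_, h, rfl⟩
    · apply mem_center <;> simp [Six.Z]
    · intro h2
      have := congrArg Six.z (congrArg Subtype.val h2)
      simp [Six.Z] at this

theorem essential_of_equiv {R S : Type} [Ring R] [Ring S] (e : R ≃+* S)
    (h : CentrallyEssential R) : CentrallyEssential S := by
  have hc : ∀ r ∈ Subring.center R, e r ∈ Subring.center S := by
    intro r hr
    rw [Subring.mem_center_iff] at hr ⊢
    intro s
    obtain ⟨t, rfl⟩ := e.surjective s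
    rw [← map_mul, ← map_mul, hr]
  intro a ha
  obtain ⟨c, hcc, d, hd, hc0, hd0, hcd⟩ := h (e.symm a) (by simpa using ha)
  refine ⟨e c, hc c hcc, e d, hc d hd, by simpa using hc0, by simpa using hd0, ?_⟩
  rw [← hcd, map_mul, e.apply_symm_apply]

theorem not_comm : ¬ ∀ f g : AddMonoid.End A, f * g = g * f := by
  intro h
  have h1 := h (equiv ⟨Six.X, X_mem⟩) (equiv ⟨Six.Y, Y_mem⟩)
  rw [← map_mul, ← map_mul] at h1
  exact Six.X_ne (congrArg Subtype.val (equiv.injective h1))

/-- Every element has a multiple in the ring. -/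
theorem exists_mul_mem (s : Six) : ∃ n : ℕ, 0 < n ∧ (n : Six) * s ∈ T := by
  have key : ∀ (r : ℚ), ∃ n : ℕ, 0 < n ∧ ∀ m : ℕ, n ∣ m → ∃ k : ℤ, (m : ℚ) * r = k := by
    intro r
    refine ⟨r.den, r.den_pos, ?_⟩
    rintro m ⟨l, rfl⟩
    refine ⟨l * r.num, ?_⟩
    have := Rat.mul_den_eq_num r
    push_cast
    rw [← this]; ring
  obtain ⟨na, ha, ha'⟩ := key s.a
  obtain ⟨nx, hx, hx'⟩ := key s.x
  obtain ⟨ny, hy, hy'⟩ := key s.y
  obtain ⟨nz, hz, hz'⟩ := key s.z
  obtain ⟨np, hp, hp'⟩ := key s.p
  obtain ⟨nq, hq, hq'⟩ := key s.q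
  set n := na * nx * ny * nz * np * nq with hn
  obtain ⟨ka, ea⟩ := ha' n ⟨nx * ny * nz * np * nq, by rw [hn]; ring⟩
  obtain ⟨kx, ex⟩ := hx' n ⟨na * ny * nz * np * nq, by rw [hn]; ring⟩
  obtain ⟨ky, ey⟩ := hy' n ⟨na * nx * nz * np * nq, by rw [hn]; ring⟩
  obtain ⟨kz, ez⟩ := hz' n ⟨na * nx * ny * np * nq, by rw [hn]; ring⟩
  obtain ⟨kp, ep⟩ := hp' n ⟨na * nx * ny * nz * nq, by rw [hn]; ring⟩
  obtain ⟨kq, eq⟩ := hq' n ⟨na * nx * ny * nz * np, by rw [hn]; ring⟩
  refine ⟨n, by positivity, ?_⟩
  have e1 : (n : Six) * s = ka • (1 : Six) + kx • Six.X + ky • Six.Y + kz • Six.Z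
      + kp • (Six.X * Six.Y) + kq • (Six.Y * Six.Z) := by
    apply Six.ext <;> simp [Six.X, Six.Y, Six.Z, ea, ex, ey, ez, ep, eq]
  rw [e1]
  exact T.add_mem (T.add_mem (T.add_mem (T.add_mem (T.add_mem (T.zsmul_mem T.one_mem _)
    (T.zsmul_mem X_mem _)) (T.zsmul_mem Y_mem _)) (T.zsmul_mem Z_mem _))
    (T.zsmul_mem (T.mul_mem X_mem Y_mem) _)) (T.zsmul_mem (T.mul_mem Y_mem Z_mem) _)

instance : IsLocalizedModule (nonZeroDivisors ℤ) (A.subtype.toIntLinearMap) where
  map_units := by
    rintro ⟨n, hn⟩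
    have hn0 : (n : ℚ) ≠ 0 := by exact_mod_cast nonZeroDivisors.ne_zero hn
    rw [Module.End.isUnit_iff]
    constructor
    · intro s t h
      have h1 : n • s = n • t := h
      apply Six.ext
      · have := congrArg Six.a h1
        simpa [hn0] using this
      · have := congrArg Six.x h1
        simpa [hn0] using this
      · have := congrArg Six.y h1
        simpa [hn0] using this
      · have := congrArg Six.z h1
        simpa [hn0] using this
      · have := congrArg Six.p h1
        simpa [hn0] using this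
      · have := congrArg Six.q h1
        simpa [hn0] using this
    · intro s
      refine ⟨(n : ℚ)⁻¹ • s, ?_⟩
      change n • ((n : ℚ)⁻¹ • s) = s
      apply Six.ext <;> simp [hn0]
  surj s := by
    obtain ⟨n, hn, hns⟩ := exists_mul_mem s
    refine ⟨(⟨(n : Six) * s, Grp_of_mem hns⟩, ⟨(n : ℤ), ?_⟩), ?_⟩
    · exact mem_nonZeroDivisors_of_ne_zero (by exact_mod_cast hn.ne')
    · change (n : ℤ) • s = (n : Six) * s
      apply Six.ext <;> simp
  exists_of_eq {s t} h := ⟨1, by rw [Subtype.ext (show (s : Six) = t from h)]⟩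

theorem rank_eq : Module.finrank ℚ (TensorProduct ℤ ℚ A) = 6 := by
  have hb : IsBaseChange ℚ (A.subtype.toIntLinearMap) :=
    IsLocalizedModule.isBaseChange (nonZeroDivisors ℤ) ℚ _
  rw [hb.equiv.finrank_eq, Six.finrank_eq]

theorem torsionFree (n : ℕ) (hn : n ≠ 0) (a : A) (h : n • a = 0) : a = 0 := by
  apply Subtype.ext
  apply cast_cancel hn
  have h1 := congrArg Subtype.val h
  simpa using h1

theorem stronglyIndecomposable : StronglyIndecomposable A := by
  refine ⟨⟨⟨1, Grp_of_mem T.one_mem⟩, 0, fun h => ?_⟩, ?_⟩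
  · have := congrArg Six.a (congrArg Subtype.val h)
    simp at this
  intro B C n hn hBC hsum
  have hdec : ∀ a : A, ∃ b ∈ B, ∃ c ∈ C, b + c = n • a := fun a => by
    have := hsum a
    rwa [AddSubgroup.mem_sup] at this
  have huniq : ∀ b ∈ B, ∀ c ∈ C, ∀ b' ∈ B, ∀ c' ∈ C, b + c = b' + c' → b = b' := by
    intro b hb c hc b' hb' c' hc' h
    have h1 : b - b' = c' - c := by
      rw [sub_eq_sub_iff_add_eq_add, h, add_comm]
    have h2 : b - b' ∈ B ⊓ C :=
      ⟨B.sub_mem hb hb', by rw [h1]; exact C.sub_mem hc' hc⟩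
    rw [hBC, AddSubgroup.mem_bot] at h2
    exact sub_eq_zero.1 h2
  choose b hb c hc hbc using hdec
  let f : AddMonoid.End A :=
    { toFun := b
      map_zero' := by
        apply huniq _ (hb 0) _ (hc 0) 0 B.zero_mem 0 C.zero_mem
        rw [hbc, smul_zero, add_zero]
      map_add' := fun s t => by
        apply huniq _ (hb _) _ (hc _) _ (B.add_mem (hb s) (hb t)) _ (C.add_mem (hc s) (hc t))
        rw [hbc, smul_add, ← hbc s, ← hbc t]
        abel }
  have hfB : ∀ s ∈ B, f s = n • s := by
    intro s hs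
    apply huniq _ (hb s) _ (hc s) _ (B.nsmul_mem hs n) 0 C.zero_mem
    rw [hbc, add_zero]
  have hfC : ∀ s ∈ C, f s = 0 := by
    intro s hs
    apply huniq _ (hb s) _ (hc s) 0 B.zero_mem _ (C.nsmul_mem hs n)
    rw [hbc, zero_add]
  obtain ⟨r, hr⟩ := equiv.surjective f
  have hrr : r * r = (n : T) * r := by
    apply equiv.injective
    rw [map_mul, map_mul, hr]
    apply AddMonoidHom.ext
    intro a
    have h1 : f (f a) = n • f a := hfB _ (hb a)
    change f (f a) = (equiv (n : T)) (f a)
    rw [h1, map_natCast]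
    rfl
  have hrr' : (r : Six) * r = n * r := by
    have := congrArg Subtype.val hrr
    simpa using this
  rcases Six.almost_idempotent hn hrr' with h | h
  · left
    have h0 : r = 0 := Subtype.ext h
    rw [eq_bot_iff]
    intro s hs
    rw [AddSubgroup.mem_bot]
    apply torsionFree n hn.ne'
    rw [← hfB s hs, ← hr, h0, map_zero]
    rfl
  · right
    have h0 : r = (n : T) := Subtype.ext (by simpa using h)
    rw [eq_bot_iff]
    intro s hs
    rw [AddSubgroup.mem_bot]
    apply torsionFree n hn.ne'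
    rw [← hfC s hs, ← hr, h0, map_natCast]
    rfl

/-- There is a strongly indecomposable torsion-free abelian group of rank six whose endomorphism
ring is centrally essential and not commutative. -/
theorem result : ∃ (A : Type) (_ : AddCommGroup A),
    (∀ (n : ℕ) (a : A), n ≠ 0 → n • a = 0 → a = 0) ∧
    Module.finrank ℚ (TensorProduct ℤ ℚ A) = 6 ∧ StronglyIndecomposable A ∧
    CentrallyEssential (AddMonoid.End A) ∧ ¬ ∀ f g : AddMonoid.End A, f * g = g * f :=
  ⟨A, inferInstance, fun n a hn h => torsionFree n hn a h, rank_eq, stronglyIndecomposable,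
    essential_of_equiv equiv essential_T, not_comm⟩

end Pool.Agent.Results.MP_7bf690_al.RankSix
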